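import Pool.Agent.Lib_helper4.AsyF.ASM5

/-!
Odd-cycle-different Hamiltonian paths: for every `k ≥ 2` the maximum size `M_k(n)` of a pairwise
`C_{2k+1}`-different family of Hamiltonian paths on `n` vertices satisfies
`(1 - exp(-c n)) b(n) ≤ M_k(n)` for all large `n`, where `b(n)` is the number of balanced
bipartitions of an `n`-set (the known upper bound is `M_k(n) ≤ b(n)`).
-/

set_option autoImplicit false

namespace Pool.Agent.Results.MP_969d96_co.AlmostExact

/-- For every `k ≥ 2` there are `c > 0` and `n₀` such that for every `n ≥ n₀` there is a family of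
at least `(1 - exp(-c n)) b(n)` Hamiltonian paths on `Fin n` such that the union of any two
distinct members contains a cycle of length `2k+1`; here `b(n)` is `C(n, n/2) / 2` for even `n`
and `C(n, (n-1)/2)` for odd `n`. -/
theorem result : ∀ k : ℕ, 1 < k → ∃ c : ℝ, 0 < c ∧ ∃ n₀ : ℕ, ∀ n : ℕ, n₀ ≤ n →
    ∃ F : Finset (SimpleGraph (Fin n)),
      (1 - Real.exp (-c * n)) *
        ((if Even n then n.choose (n / 2) / 2 else n.choose (n / 2) : ℕ) : ℝ) ≤ (F.card : ℝ) ∧
      (∀ P ∈ F, Nonempty (SimpleGraph.pathGraph n ≃g P)) ∧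
      (F : Set (SimpleGraph (Fin n))).Pairwise
        (fun P Q => ∃ v : Fin n, ∃ w : (P ⊔ Q).Walk v v, w.IsCycle ∧ w.length = 2 * k + 1) := by
  intro k hk
  exact Pool.Agent.Lib_helper4.Asy.main k hk

end Pool.Agent.Results.MP_969d96_co.AlmostExact
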